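import Pool.Agent.H869R3.DM.Comp
import Pool.Agent.H869R3.DM.NegCoh

/-!
Completeness of the density metric implies neither the cohesiveness principle nor arithmetical
induction over `RCA₀ + B Σ⁰₂`.

The model is the initial segment of an ultrapower of the natural numbers generated by the iterates
of the settling function of the universal enumeration, with the sets computable in the sense of
the model. It satisfies `B Σ⁰₂`, and it is the union of countably many initial segments with
endpoints `b_n`; every function from the standard numbers to the numbers of the model is coded, and
this gives completeness of the density metric. In the model there is a computable sequence of sets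
`R_e` such that `R_e` splits the `e`-th computable set, so `COH` fails. The arithmetical formula
saying that the iteration of the settling function can be carried out `n` times from the first
nonstandard endpoint holds for exactly the standard `n`, so arithmetical induction fails.
-/

namespace Pool.Agent.Results.MP_d53a0a_lc.CompletenessWithoutCOH

open Pool.Agent.Helper617.RM Pool.Agent.Helper617.FS Pool.Agent.H869R3.DM

/-- There is a model of `RCA₀ + B Σ⁰₂` in which the density metric is complete, the cohesiveness
principle `COH` fails and arithmetical induction fails. -/
theorem result : ∃ N : L2Structure.{0},
    IsModelRCA0 N ∧ SigmaTwoBounding N ∧ DensityComplete N ∧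
      ¬ Pool.Agent.Helper617.CR.COH N ∧ ¬ ArithInd N :=
  ⟨NN, isModel, bounding2, complete, not_coh, not_ind⟩

end Pool.Agent.Results.MP_d53a0a_lc.CompletenessWithoutCOH
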