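import Pool.Agent.H869R3.DM.Comp
import Pool.Agent.H869R3.DM.NegDom

/-!
Completeness of the density metric does not imply the domination principle over
`RCA₀ + B Σ⁰₂` (and so not over `RCA₀`).

Let `W` be the settling function of the universal enumeration, and let `B n` be its `n`-th
iterate. In the ultrapower of the natural numbers by a nonprincipal ultrafilter let `b_n` be the
class of `i ↦ B n i`. The numbers of the model are the elements of the ultrapower which are below
some `b_n`, and its sets are those which are computable in the sense of the model. The initial
segment is closed under the computable functions and `Σ₁`-elementary in the ultrapower, it
satisfies `B Σ⁰₂`, its cofinality is countable, and every function from the standard numbers to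
the numbers of the model is coded in the model. A `δ`-Cauchy sequence has moduli along the cofinal
sequence `b_n`; these moduli are coded, so the sequence has a limit by the argument for strongly
`δ`-Cauchy sequences. On the other hand the settling function `W` of the model is not dominated by
any function of the model.
-/

namespace Pool.Agent.Results.MP_d53a0a_lc.CompletenessWithoutDOM

open Pool.Agent.Helper617.RM Pool.Agent.Helper617.FS Pool.Agent.H869R3.DM

/-- There is a model of `RCA₀ + B Σ⁰₂` in which the density metric is complete and the domination
principle `DOM` fails. -/
theorem result : ∃ N : L2Structure.{0},
    IsModelRCA0 N ∧ SigmaTwoBounding N ∧ DensityComplete N ∧ ¬ DOM N :=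
  ⟨NN, isModel, bounding2, complete, not_dom⟩

end Pool.Agent.Results.MP_d53a0a_lc.CompletenessWithoutDOM
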